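import Pool.Agent.TH231.DFM.Stmts

/-!
# DFM-PSQ: `Psi (√r) ^ 2 ≤ Psi r` (job 5409)
-/

set_option autoImplicit false

open MeasureTheory ProbabilityTheory Filter Topology

namespace Pool.TH633.DFM

open Pool.TH231.DFM

instance instProb (κ : Type) [Fintype κ] : IsProbabilityMeasure (gam κ) := by
  unfold gam
  infer_instance

theorem integrable_bdd {Ω : Type} [TopologicalSpace Ω] [MeasurableSpace Ω]
    [OpensMeasurableSpace Ω] (μ : Measure Ω) [IsProbabilityMeasure μ] (F : Ω → ℝ)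
    (hF : Continuous F) (hb : ∀ x, |F x| ≤ 1) : Integrable F μ :=
  Integrable.of_bound hF.aestronglyMeasurable 1 (ae_of_all _ fun x => by simpa using hb x)

theorem mp_integral {α β : Type} [MeasurableSpace α] [MeasurableSpace β] {μ : Measure α}
    {ν : Measure β} {f : α → β} (h : MeasurePreserving f μ ν) {F : β → ℝ}
    (hF : AEStronglyMeasurable F ν) : ∫ x, F (f x) ∂μ = ∫ y, F y ∂ν := by
  rw [← h.map_eq, integral_map h.measurable.aemeasurable (by rwa [h.map_eq])]

theorem sumMP (κ κ' : Type) [Fintype κ] [Fintype κ'] :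
    MeasurePreserving (fun h : κ ⊕ κ' → ℝ => ((fun c => h (Sum.inl c)), fun c => h (Sum.inr c)))
      (gam (κ ⊕ κ')) ((gam κ).prod (gam κ')) :=
  measurePreserving_sumPiEquivProdPi (fun _ : κ ⊕ κ' => gaussianReal 0 1)

section

variable {κ : Type} [Fintype κ] [DecidableEq κ]

theorem ip_block (c : κ) (x : Fin 3 → ℝ) (g : Fin 3 × κ → ℝ) :
    ip (fun q : Fin 3 × κ => if q.2 = c then x q.1 else 0) g =
      x 0 * g (0, c) + x 1 * g (1, c) + x 2 * g (2, c) := by
  unfold ip
  rw [Fintype.sum_prod_type, Fin.sum_univ_three]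
  simp [ite_mul]

/-- two orthonormal blocks -/
theorem two_blocks (hLAW : St_LAW) (x y : Fin 3 → ℝ) (hxx : x 0 * x 0 + x 1 * x 1 + x 2 * x 2 = 1)
    (hyy : y 0 * y 0 + y 1 * y 1 + y 2 * y 2 = 1) (hxy : x 0 * y 0 + x 1 * y 1 + x 2 * y 2 = 0) :
    MeasurePreserving (fun g : Fin 3 × κ → ℝ =>
      ((fun c => x 0 * g (0, c) + x 1 * g (1, c) + x 2 * g (2, c)),
        fun c => y 0 * g (0, c) + y 1 * g (1, c) + y 2 * g (2, c)))
      (gam (Fin 3 × κ)) ((gam κ).prod (gam κ)) := by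
  let A : κ ⊕ κ → Fin 3 × κ → ℝ := Sum.elim
    (fun c q => if q.2 = c then x q.1 else 0) (fun c q => if q.2 = c then y q.1 else 0)
  have hA : ∀ i j, ip (A i) (A j) = if i = j then 1 else 0 := by
    intro i j
    rcases i with c | c <;> rcases j with c' | c'
    · simp only [A, Sum.elim_inl]
      rw [ip_block]
      by_cases h : c = c'
      · subst h; simpa using hxx
      · simp [h]
    · simp only [A, Sum.elim_inl, Sum.elim_inr]
      rw [ip_block]
      by_cases h : c = c'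
      · subst h; simpa using hxy
      · simp [h]
    · simp only [A, Sum.elim_inl, Sum.elim_inr]
      rw [ip_block]
      by_cases h : c = c'
      · subst h
        have : y 0 * x 0 + y 1 * x 1 + y 2 * x 2 = 0 := by rw [← hxy]; ring
        simpa using this
      · simp [h]
    · simp only [A, Sum.elim_inr]
      rw [ip_block]
      by_cases h : c = c'
      · subst h; simpa using hyy
      · simp [h]
  have h1 := (sumMP κ κ).comp (hLAW (Fin 3 × κ) (κ ⊕ κ) A hA)
  convert h1 using 1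
  funext g
  simp only [Function.comp]
  refine Prod.ext ?_ ?_
  · funext c
    exact (ip_block c x g).symm
  · funext c
    exact (ip_block c y g).symm

/-- the three blocks -/
theorem three_blocks (hLAW : St_LAW) :
    MeasurePreserving (fun g : Fin 3 × κ → ℝ =>
      ((fun c => g (0, c)), ((fun c => g (1, c)), fun c => g (2, c))))
      (gam (Fin 3 × κ)) ((gam κ).prod ((gam κ).prod (gam κ))) := by
  let e : κ ⊕ (κ ⊕ κ) → Fin 3 × κ := Sum.elim (fun c => (0, c))
    (Sum.elim (fun c => (1, c)) (fun c => (2, c)))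
  have he : Function.Injective e := by
    intro i j hij
    rcases i with c | c | c <;> rcases j with c' | c' | c' <;>
      simp [e] at hij <;> simp [hij]
  let A : κ ⊕ (κ ⊕ κ) → Fin 3 × κ → ℝ := fun i q => if q = e i then 1 else 0
  have hA : ∀ i j, ip (A i) (A j) = if i = j then 1 else 0 := by
    intro i j
    unfold ip
    simp only [A, ite_mul, one_mul, zero_mul, Finset.sum_ite_eq', Finset.mem_univ, if_true]
    by_cases h : i = j
    · simp [h]
    · have : e i ≠ e j := fun h' => h (he h')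
      simp [h, this]
  have h0 := hLAW (Fin 3 × κ) (κ ⊕ (κ ⊕ κ)) A hA
  have h1 := (sumMP κ (κ ⊕ κ)).comp h0
  have h2 := ((MeasurePreserving.id (gam κ)).prod (sumMP κ κ)).comp h1
  convert h2 using 1
  funext g
  have h3 : ∀ i, ip (A i) g = g (e i) := by
    intro i
    unfold ip
    simp only [A, ite_mul, one_mul, zero_mul, Finset.sum_ite_eq', Finset.mem_univ, if_true]
  simp only [Function.comp, Prod.map, h3, id]
  rfl

end

section

variable {κ : Type} [Fintype κ] [DecidableEq κ]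

/-- the smoothed function -/
noncomputable def PP (r : ℝ) (f : (κ → ℝ) → ℝ) (x : κ → ℝ) : ℝ :=
  ∫ z, f (fun c => r * x c + √(1 - r ^ 2) * z c) ∂(gam κ)

omit [Fintype κ] [DecidableEq κ] in
theorem cont_mix (r s : ℝ) {f : (κ → ℝ) → ℝ} (hf : Continuous f) :
    Continuous fun p : (κ → ℝ) × (κ → ℝ) => f (fun c => r * p.1 c + s * p.2 c) :=
  hf.comp (by fun_prop)

/-- `Φ(r)` is the integral of the square -/
theorem phi_eq (hLAW : St_LAW) (r : ℝ) (f : (κ → ℝ) → ℝ) (hf : Continuous f)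
    (hb : ∀ x, |f x| ≤ 1) :
    EE (fun g : Fin 3 × κ → ℝ => f (mix r 0 1 g) * f (mix r 0 2 g)) =
      ∫ x, (PP r f x) ^ 2 ∂(gam κ) ∧ Integrable (fun x => (PP r f x) ^ 2) (gam κ) := by
  set s := √(1 - r ^ 2) with hs
  let F : (κ → ℝ) × ((κ → ℝ) × (κ → ℝ)) → ℝ := fun p =>
    f (fun c => r * p.1 c + s * p.2.1 c) * f (fun c => r * p.1 c + s * p.2.2 c)
  have hF : Continuous F := by
    apply Continuous.mul
    · exact hf.comp (by fun_prop)
    · exact hf.comp (by fun_prop)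
  have hFb : ∀ p, |F p| ≤ 1 := by
    intro p
    simp only [F, abs_mul]
    exact mul_le_one₀ (hb _) (abs_nonneg _) (hb _)
  have hFi := integrable_bdd ((gam κ).prod ((gam κ).prod (gam κ))) F hF hFb
  have h1 : EE (fun g : Fin 3 × κ → ℝ => f (mix r 0 1 g) * f (mix r 0 2 g)) =
      ∫ p, F p ∂((gam κ).prod ((gam κ).prod (gam κ))) := by
    unfold EE
    rw [← mp_integral (three_blocks hLAW) hF.aestronglyMeasurable]
    rfl
  have h2 : ∀ x, ∫ q, F (x, q) ∂((gam κ).prod (gam κ)) = (PP r f x) ^ 2 := by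
    intro x
    rw [sq]
    unfold PP
    rw [← hs]
    exact integral_prod_mul (fun z : κ → ℝ => f (fun c => r * x c + s * z c))
      (fun z : κ → ℝ => f (fun c => r * x c + s * z c))
  refine ⟨?_, ?_⟩
  · rw [h1, integral_prod _ hFi]
    exact integral_congr_ae (ae_of_all _ h2)
  · have h3 := hFi.integral_prod_left
    exact h3.congr (ae_of_all _ h2)

/-- `Φ(√r)` is the correlation -/
theorem phi_sqrt (hLAW : St_LAW) (r : ℝ) (hr0 : 0 ≤ r) (hr1 : r ≤ 1) (f : (κ → ℝ) → ℝ)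
    (hf : Continuous f) (hb : ∀ x, |f x| ≤ 1) :
    EE (fun g : Fin 3 × κ → ℝ => f (mix (√r) 0 1 g) * f (mix (√r) 0 2 g)) =
      ∫ x, f x * PP r f x ∂(gam κ) ∧ Integrable (fun x => f x * PP r f x) (gam κ) := by
  set s := √(1 - r ^ 2) with hs
  have a1 : √r * √r = r := Real.mul_self_sqrt hr0
  have a2 : √(1 - r) * √(1 - r) = 1 - r := Real.mul_self_sqrt (by linarith)
  have a3 : √(1 + r) * √(1 + r) = 1 + r := Real.mul_self_sqrt (by linarith)
  have a4 : 0 < √(1 + r) := Real.sqrt_pos.2 (by linarith)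
  have a5 : s = √(1 - r) * √(1 + r) := by
    rw [hs, ← Real.sqrt_mul (by linarith)]
    congr 1
    ring
  have a6 : √(1 - √r ^ 2) = √(1 - r) := by rw [sq, a1]
  let x : Fin 3 → ℝ := ![√r, √(1 - r), 0]
  let y : Fin 3 → ℝ := ![√r * √(1 - r) / √(1 + r), -r / √(1 + r), 1 / √(1 + r)]
  have hxx : x 0 * x 0 + x 1 * x 1 + x 2 * x 2 = 1 := by
    simp only [x, Matrix.cons_val_zero, Matrix.cons_val_one, Matrix.cons_val]
    linarith
  have hyy : y 0 * y 0 + y 1 * y 1 + y 2 * y 2 = 1 := by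
    simp only [y, Matrix.cons_val_zero, Matrix.cons_val_one, Matrix.cons_val]
    have : √r * √(1 - r) / √(1 + r) * (√r * √(1 - r) / √(1 + r)) +
        -r / √(1 + r) * (-r / √(1 + r)) + 1 / √(1 + r) * (1 / √(1 + r)) =
        ((√r * √r) * (√(1 - r) * √(1 - r)) + r * r + 1) / (√(1 + r) * √(1 + r)) := by
      field_simp
    rw [this, a1, a2, a3, div_eq_one_iff_eq (by linarith)]
    ring
  have hxy : x 0 * y 0 + x 1 * y 1 + x 2 * y 2 = 0 := by
    simp only [x, y, Matrix.cons_val_zero, Matrix.cons_val_one, Matrix.cons_val]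
    have : √r * (√r * √(1 - r) / √(1 + r)) + √(1 - r) * (-r / √(1 + r)) +
        0 * (1 / √(1 + r)) = (√r * √r - r) * √(1 - r) / √(1 + r) := by
      field_simp
      ring
    rw [this, a1]
    simp
  have hMP := two_blocks (κ := κ) hLAW x y hxx hyy hxy
  let F : (κ → ℝ) × (κ → ℝ) → ℝ := fun p => f p.1 * f (fun c => r * p.1 c + s * p.2 c)
  have hF : Continuous F := (hf.comp continuous_fst).mul (cont_mix r s hf)
  have hFb : ∀ p, |F p| ≤ 1 := by
    intro p
    simp only [F, abs_mul]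
    exact mul_le_one₀ (hb _) (abs_nonneg _) (hb _)
  have hFi := integrable_bdd ((gam κ).prod (gam κ)) F hF hFb
  have h1 : EE (fun g : Fin 3 × κ → ℝ => f (mix (√r) 0 1 g) * f (mix (√r) 0 2 g)) =
      ∫ p, F p ∂((gam κ).prod (gam κ)) := by
    unfold EE
    rw [← mp_integral hMP hF.aestronglyMeasurable]
    refine integral_congr_ae (ae_of_all _ fun g => ?_)
    simp only [F]
    have b1 : mix (√r) 0 1 g = fun c => x 0 * g (0, c) + x 1 * g (1, c) + x 2 * g (2, c) := by
      funext c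
      simp only [mix, x, a6, Matrix.cons_val_zero, Matrix.cons_val_one, Matrix.cons_val]
      ring
    have b2 : mix (√r) 0 2 g = fun c => r * (x 0 * g (0, c) + x 1 * g (1, c) + x 2 * g (2, c)) +
        s * (y 0 * g (0, c) + y 1 * g (1, c) + y 2 * g (2, c)) := by
      funext c
      simp only [mix, x, y, a6, a5, Matrix.cons_val_zero, Matrix.cons_val_one, Matrix.cons_val]
      have e1 : √(1 - r) * √(1 + r) * (√r * √(1 - r) / √(1 + r) * g (0, c) +
          -r / √(1 + r) * g (1, c) + 1 / √(1 + r) * g (2, c)) =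
          (√(1 - r) * √(1 - r)) * √r * g (0, c) - r * √(1 - r) * g (1, c) +
            √(1 - r) * g (2, c) := by
        field_simp
        ring
      rw [e1, a2]
      ring
    rw [b1, b2]
  have h2 : ∀ x, ∫ z, F (x, z) ∂(gam κ) = f x * PP r f x := by
    intro x
    unfold PP
    rw [← hs, ← integral_const_mul]
  refine ⟨?_, ?_⟩
  · rw [h1, integral_prod _ hFi]
    exact integral_congr_ae (ae_of_all _ h2)
  · have h3 := hFi.integral_prod_left
    exact h3.congr (ae_of_all _ h2)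

/-- one function -/
theorem phi_main (hLAW : St_LAW) (r : ℝ) (hr0 : 0 ≤ r) (hr1 : r ≤ 1) (f : (κ → ℝ) → ℝ)
    (hf : Continuous f) (hb : ∀ x, |f x| ≤ 1) :
    0 ≤ EE (fun g : Fin 3 × κ → ℝ => f (mix r 0 1 g) * f (mix r 0 2 g)) ∧
    EE (fun g : Fin 3 × κ → ℝ => f (mix (√r) 0 1 g) * f (mix (√r) 0 2 g)) ^ 2 ≤
      EE (fun g : Fin 3 × κ → ℝ => f (mix r 0 1 g) * f (mix r 0 2 g)) := by
  obtain ⟨h1, h1i⟩ := phi_eq hLAW r f hf hb
  obtain ⟨h2, h2i⟩ := phi_sqrt hLAW r hr0 hr1 f hf hb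
  have h3 : 0 ≤ ∫ x, (PP r f x) ^ 2 ∂(gam κ) := integral_nonneg fun _ => sq_nonneg _
  refine ⟨by rw [h1]; exact h3, ?_⟩
  rw [h1, h2]
  set a := ∫ x, f x * PP r f x ∂(gam κ) with ha
  have hff : Integrable (fun x => f x ^ 2) (gam κ) :=
    integrable_bdd _ _ (hf.pow 2) fun x => by
      rw [abs_pow]
      exact pow_le_one₀ (abs_nonneg _) (hb x)
  have hff1 : ∫ x, f x ^ 2 ∂(gam κ) ≤ 1 := by
    have : ∫ x, f x ^ 2 ∂(gam κ) ≤ ∫ _x : κ → ℝ, (1 : ℝ) ∂(gam κ) :=
      integral_mono hff (integrable_const _) fun x => by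
        have := pow_le_one₀ (n := 2) (abs_nonneg (f x)) (hb x)
        simpa using this
    simpa using this
  have h4 : 0 ≤ ∫ x, (PP r f x - a * f x) ^ 2 ∂(gam κ) := integral_nonneg fun _ => sq_nonneg _
  have h5 : ∫ x, (PP r f x - a * f x) ^ 2 ∂(gam κ) =
      ∫ x, (PP r f x) ^ 2 ∂(gam κ) - 2 * a * a + a ^ 2 * ∫ x, f x ^ 2 ∂(gam κ) := by
    have e1 : (fun x => (PP r f x - a * f x) ^ 2) = fun x =>
        (PP r f x) ^ 2 - 2 * a * (f x * PP r f x) + a ^ 2 * f x ^ 2 := by
      funext x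
      ring
    have e2 : Integrable (fun x => (PP r f x) ^ 2 - 2 * a * (f x * PP r f x)) (gam κ) :=
      h1i.sub (h2i.const_mul (2 * a))
    rw [e1, integral_add e2 (hff.const_mul (a ^ 2)),
      integral_sub h1i (h2i.const_mul (2 * a)), integral_const_mul, integral_const_mul, ← ha]
  rw [h5] at h4
  have h6 : a ^ 2 * ∫ x, f x ^ 2 ∂(gam κ) ≤ a ^ 2 * 1 :=
    mul_le_mul_of_nonneg_left hff1 (sq_nonneg _)
  nlinarith

end

theorem cont_mix3 {κ : Type} [Fintype κ] (r : ℝ) (a : Fin 3) :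
    Continuous fun g : Fin 3 × κ → ℝ => mix r 0 a g := by
  unfold mix
  fun_prop

theorem abs_sg (s : Fin 2) : |sg s| = 1 := by
  unfold sg
  rw [abs_pow]
  simp

theorem t_PSQ (hLAW : St_LAW) (hINT : St_INT) : St_PSQ := by
  intro β r N hN hr0 hr1
  have hc : ∀ i j, Continuous (mm β N i j) := fun i j =>
    (hINT (Fin N → Fin 2) (Fin N × Fin N) (uu β N) (fun _ => 0)).2.2.2.1 _
  have hb : ∀ i j g, |mm β N i j g| ≤ 1 := fun i j g =>
    (hINT (Fin N → Fin 2) (Fin N × Fin N) (uu β N) (fun _ => 0)).2.2.2.2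
      (fun σ => sg (σ i) * sg (σ j)) 1
      (fun σ => by rw [abs_mul, abs_sg, abs_sg, one_mul]) g
  have hP : ∀ t : ℝ, Psi β N t = (∑ i, ∑ j,
      EE (fun g : Fin 3 × (Fin N × Fin N) → ℝ =>
        mm β N i j (mix t 0 1 g) * mm β N i j (mix t 0 2 g))) / (N : ℝ) ^ 2 := by
    intro t
    have hi : ∀ i j, Integrable (fun g : Fin 3 × (Fin N × Fin N) → ℝ =>
        mm β N i j (mix t 0 1 g) * mm β N i j (mix t 0 2 g)) (gam (Fin 3 × (Fin N × Fin N))) := by
      intro i j
      refine integrable_bdd _ _ (((hc i j).comp (cont_mix3 t 1)).mul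
        ((hc i j).comp (cont_mix3 t 2))) fun g => ?_
      rw [abs_mul]
      exact mul_le_one₀ (hb _ _ _) (abs_nonneg _) (hb _ _ _)
    unfold Psi EE
    rw [integral_div, integral_finsetSum _ fun i _ => integrable_finsetSum _ fun j _ => hi i j]
    congr 1
    refine Finset.sum_congr rfl fun i _ => ?_
    rw [integral_finsetSum _ fun j _ => hi i j]
  have hm : ∀ i j, _ := fun i j =>
    phi_main (κ := Fin N × Fin N) hLAW r hr0 hr1 (mm β N i j) (hc i j) (hb i j)
  have hNR : (0 : ℝ) < N := by exact_mod_cast hN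
  refine ⟨?_, ?_⟩
  · rw [hP]
    exact div_nonneg (Finset.sum_nonneg fun i _ => Finset.sum_nonneg fun j _ => (hm i j).1)
      (by positivity)
  · rw [hP, hP, div_pow]
    rw [← Fintype.sum_prod_type', ← Fintype.sum_prod_type']
    have h1 := sq_sum_le_card_mul_sum_sq (s := (Finset.univ : Finset (Fin N × Fin N)))
      (f := fun p : Fin N × Fin N => EE (fun g : Fin 3 × (Fin N × Fin N) → ℝ =>
        mm β N p.1 p.2 (mix (√r) 0 1 g) * mm β N p.1 p.2 (mix (√r) 0 2 g)))
    have h2 : ((Finset.univ : Finset (Fin N × Fin N)).card : ℝ) = (N : ℝ) ^ 2 := by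
      simp [sq]
    rw [h2] at h1
    have h3 : ∑ p : Fin N × Fin N, (EE (fun g : Fin 3 × (Fin N × Fin N) → ℝ =>
        mm β N p.1 p.2 (mix (√r) 0 1 g) * mm β N p.1 p.2 (mix (√r) 0 2 g))) ^ 2 ≤
        ∑ p : Fin N × Fin N, EE (fun g : Fin 3 × (Fin N × Fin N) → ℝ =>
          mm β N p.1 p.2 (mix r 0 1 g) * mm β N p.1 p.2 (mix r 0 2 g)) :=
      Finset.sum_le_sum fun p _ => (hm p.1 p.2).2
    rw [div_le_div_iff₀ (by positivity) (by positivity)]
    have h4 : (0 : ℝ) < (N : ℝ) ^ 2 := by positivity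
    have h5 := h1.trans (mul_le_mul_of_nonneg_left h3 h4.le)
    calc _ ≤ _ := mul_le_mul_of_nonneg_right h5 h4.le
      _ = _ := by ring

end Pool.TH633.DFM
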